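import Pool.Agent.W602.RG.Stm

/-! Project RG (helper602): the constant field extension inside the ultrapower. -/

set_option autoImplicit false

namespace Pool.Agent.W736.RG

open Pool.Agent.W602.RG

theorem mk_sum {K ι : Type} [Field K] (s : Finset ι) (f : ι → ℕ → K) :
    ∑ i ∈ s, Om.mk (f i) = Om.mk (fun n => ∑ i ∈ s, f i n) := by
  classical
  induction s using Finset.induction_on with
  | empty => simp only [Finset.sum_empty]; rfl
  | insert a s ha ih =>
    rw [Finset.sum_insert ha, ih, Om.mk_add]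
    simp only [Finset.sum_insert ha]

theorem ld_aux (k L : Type) [Field k] [Field L] [Algebra k L] (m : ℕ) (v : Fin m → L)
    (hv : LinearIndependent k v) :
    LinearIndependent (Om k) (fun i => algebraMap L (EE k L) (v i)) := by
  rw [Fintype.linearIndependent_iff] at hv ⊢
  intro g hg
  choose u hu using fun i => Om.mk_surj (g i)
  have h1 : ((∑ i, g i • algebraMap L (EE k L) (v i) : EE k L) : Om L) =
      Om.mk (fun n => ∑ i, u i n • v i) := by
    rw [AddSubmonoidClass.coe_finsetSum, ← mk_sum]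
    refine Finset.sum_congr rfl (fun i _ => ?_)
    rw [Algebra.smul_def]
    rw [MulMemClass.coe_mul, coe_algebraMap_L, coe_algebraMap_Om, ← hu i, mapOm_mk, cst_apply,
      Om.mk_mul]
    simp only [Algebra.smul_def]
  rw [hg] at h1
  have h2 : Om.mk (fun n => ∑ i, u i n • v i) = Om.mk (fun _ => (0 : L)) := by
    rw [← h1]; rfl
  rw [Om.mk_eq] at h2
  intro i
  rw [← hu i, ← Om.mk_zero, Om.mk_eq]
  filter_upwards [h2] with n hn
  exact hv (fun i => u i n) hn i

theorem gen_aux (k L : Type) [Field k] [Field L] [Algebra k L] (e : EE k L) :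
    ∃ a ∈ Submodule.span (Om k) (Set.range (algebraMap L (EE k L))),
    ∃ b ∈ Submodule.span (Om k) (Set.range (algebraMap L (EE k L))), b ≠ 0 ∧ e = a / b := by
  set S := Submodule.span (Om k) (Set.range (algebraMap L (EE k L))) with hS
  have hmul : ∀ a ∈ S, ∀ b ∈ S, a * b ∈ S := by
    intro a ha b hb
    have h1 : a * b ∈ S * S := Submodule.mul_mem_mul ha hb
    rw [hS, Submodule.span_mul_span] at h1
    refine Submodule.span_mono ?_ h1
    rw [Set.mul_subset_iff]
    rintro _ ⟨x, rfl⟩ _ ⟨y, rfl⟩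
    exact ⟨x * y, map_mul _ _ _⟩
  have h1 : (1 : EE k L) ∈ S := Submodule.subset_span ⟨1, map_one _⟩
  obtain ⟨e, he⟩ := e
  refine Subfield.closure_induction (p := fun x hx => ∃ a ∈ S, ∃ b ∈ S, b ≠ 0 ∧
    (⟨x, hx⟩ : EE k L) = a / b) ?_ ?_ ?_ ?_ ?_ ?_ he
  · rintro x (⟨l, rfl⟩ | ⟨w, rfl⟩)
    · refine ⟨algebraMap L (EE k L) l, Submodule.subset_span ⟨l, rfl⟩, 1, h1, one_ne_zero, ?_⟩
      rw [div_one]
      rfl
    · refine ⟨w • 1, Submodule.smul_mem _ _ h1, 1, h1, one_ne_zero, ?_⟩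
      rw [div_one, Algebra.smul_def, mul_one]
      rfl
  · refine ⟨1, h1, 1, h1, one_ne_zero, ?_⟩
    rw [div_one]
    rfl
  · rintro x y hx hy ⟨a, ha, b, hb, hb0, h⟩ ⟨a', ha', b', hb', hb0', h'⟩
    refine ⟨a * b' + b * a', S.add_mem (hmul _ ha _ hb') (hmul _ hb _ ha'), b * b',
      hmul _ hb _ hb', mul_ne_zero hb0 hb0', ?_⟩
    rw [← div_add_div _ _ hb0 hb0', ← h, ← h']
    rfl
  · rintro x hx ⟨a, ha, b, hb, hb0, h⟩
    refine ⟨-a, S.neg_mem ha, b, hb, hb0, ?_⟩
    rw [neg_div, ← h]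
    rfl
  · rintro x hx ⟨a, ha, b, hb, hb0, h⟩
    by_cases ha0 : a = 0
    · refine ⟨0, S.zero_mem, 1, h1, one_ne_zero, ?_⟩
      rw [ha0, zero_div] at h
      have hx0 : x = 0 := congrArg Subtype.val h
      apply Subtype.ext
      change x⁻¹ = _
      rw [hx0, inv_zero, zero_div]
      rfl
    · refine ⟨b, hb, a, ha, ha0, ?_⟩
      rw [← inv_div, ← h]
      rfl
  · rintro x y hx hy ⟨a, ha, b, hb, hb0, h⟩ ⟨a', ha', b', hb', hb0', h'⟩
    refine ⟨a * a', hmul _ ha _ ha', b * b', hmul _ hb _ hb', mul_ne_zero hb0 hb0', ?_⟩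
    rw [← div_mul_div_comm, ← h, ← h']
    rfl

theorem main : S_GBC := by
  intro k L _ _ _
  refine ⟨IsScalarTower.of_algebraMap_eq (fun x => Subtype.ext ?_),
    IsScalarTower.of_algebraMap_eq (fun x => Subtype.ext ?_), ld_aux k L, gen_aux k L⟩
  · rfl
  · rfl

end Pool.Agent.W736.RG
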